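import Pool.Agent.Work.MP_1e087a_ag.R3.Cert

/-!
# Moduli spaces on K3 surfaces of Picard number one: products of reflections

Let `X` be a K3 surface of Picard number one and degree `2 d`, let `Y` be a hyper-Kähler variety of
dimension `2 m` birational to a moduli space of stable objects on `X` with Mukai vector `v`, so
that `v² = 2 m - 2`. A birational automorphism of `Y` acting as `ν = ± 1` on the 2-form acts on the
algebraic Mukai lattice `ℤ³` by an isometry `g` which is `ν` on the discriminant group and maps `v`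
to `± v`. The isometry `ν g` is a product of reflections in vectors of square `± 2` for `30` values
of `d`, among them `1, …, 11`, if `d` is odd or if `m` is even.
-/

namespace Pool.Agent.Results.MP_1e087a_ag.ModuliPicardOne

open Pool.Agent.Mukai3

theorem result (d : ℤ) (hd : d ∈ ([1, 2, 3, 4, 5, 6, 7, 8, 9, 10, 11, 13, 14, 15, 16, 17, 19, 21,
      23, 25, 26, 29, 31, 35, 39, 41, 47, 49, 59, 71] : List ℤ))
    (ν : ℤ) (hν : ν = 1 ∨ ν = -1) (g : V →+ V) (hg : ∀ x, Q d (g x) = Q d x)
    (hD : DiscAct d ν g)
    (hp : Odd d ∨ ∃ v : V, Odd (Q d v) ∧ (g v = v ∨ g v = -v)) :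
    IsProd d (fun x => ν • g x) := by
  rw [← table_fst] at hd
  obtain ⟨p, hpt, rfl⟩ := List.mem_map.1 hd
  obtain ⟨h1, h2⟩ := table_cert p hpt
  exact isProd_of_cert h1 h2 hν hg hD hp

end Pool.Agent.Results.MP_1e087a_ag.ModuliPicardOne
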