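import Pool.Agent.Work.MP_1e087a_ag.F.Assm
import Pool.Agent.Work.MP_1e087a_ag.F.Rows

/-!
# Moduli spaces on K3 surfaces of Picard number two: products of reflections

Let `X` be a K3 surface of Picard number two, whose Néron-Severi lattice is `ℤ²` with the form
`2 q`, `q (u, w) = n u² + B u w + C w²`, of discriminant `-D`, `D = B² - 4 n C`. Let `Y` be a
hyper-Kähler variety of dimension `2 m` birational to a moduli space of stable objects on `X` with
Mukai vector `v`, so that `v² = 2 m - 2` and `Y` has Picard number three (or `Y = X`). A birational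
automorphism of `Y` acting as `ν = ± 1` on the 2-form acts on the algebraic Mukai lattice by an
isometry `g` which is `ν` on the discriminant group and maps `v` to `± v`. If `D` is not a square,
then the isometry `ν g E(a)` is a product of reflections in vectors of square `± 2` for some `a`,
`E(a)` the isometry given by the tensor product with a line bundle. One can take `a = 0` if `m` is
even, and for all `m` if `D` is not `1` modulo `8` and `q` takes an odd value.
-/

namespace Pool.Agent.Results.MP_1e087a_ag.ModuliPicardTwo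

open Pool.Agent.Mukai

theorem result (n B C : ℤ) (hD0 : 0 < B ^ 2 - 4 * n * C) (hDs : ¬ IsSquare (B ^ 2 - 4 * n * C))
    (ν : ℤ) (hν : ν = 1 ∨ ν = -1) (g : Mu →+ Mu) (hg : ∀ x, Qf n B C (g x) = Qf n B C x)
    (hd : DiscActN n B C ν g) :
    ∃ a : ℤ × ℤ,
      IsProd n B C (fun x => ν • g (x.1, x.2.1 + pf n B C a x.2.2 + x.1 * qf n B C a,
        x.2.2 + x.1 • a)) ∧
      (((B ^ 2 - 4 * n * C) % 8 ≠ 1 ∧ ∃ b : ℤ × ℤ, Odd (qf n B C b)) ∨
        (∃ v : Mu, Odd (Qf n B C v) ∧ (g v = v ∨ g v = -v)) → a = 0) := by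
  obtain ⟨⟨a, ha⟩, h0⟩ := RF.all_of hD0 hDs
    (fun _ _ _ _ _ h1 h2 => RF.act_mem_Wp hD0 hDs h1 h2) hν hg hd
  by_cases hc : ((B ^ 2 - 4 * n * C) % 8 ≠ 1 ∧ ∃ b : ℤ × ℤ, Odd (qf n B C b)) ∨
        (∃ v : Mu, Odd (Qf n B C v) ∧ (g v = v ∨ g v = -v))
  · refine ⟨0, ?_, fun _ => rfl⟩
    have h := h0 hc
    have he : (fun x : Mu => ν • g (x.1, x.2.1 + pf n B C 0 x.2.2 + x.1 * qf n B C 0,
        x.2.2 + x.1 • (0 : ℤ × ℤ))) = fun x => ν • g x := by
      funext x
      have h1 : pf n B C 0 x.2.2 = 0 := by simp [pf]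
      have h2 : qf n B C 0 = 0 := by simp [qf]
      rw [h1, h2, mul_zero, add_zero, add_zero, smul_zero, add_zero]
    rw [he]
    exact h
  · exact ⟨a, ha, fun h => absurd h hc⟩

end Pool.Agent.Results.MP_1e087a_ag.ModuliPicardTwo
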